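import Pool.Agent.Helper38.Curl.Rep
import Pool.Agent.Helper66.Curl.P1

open MeasureTheory Set Filter Topology Metric
open scoped ContDiff RealInnerProductSpace
open Pool.Agent.Helper38.Curl

namespace Pool.Agent.Helper77.Curl

theorem TestF.add' {q q' : E → ℝ} (h : TestF q) (h' : TestF q') :
    TestF (fun x => q x + q' x) := ⟨h.1.add h'.1, h.2.add h'.2⟩

theorem TestF.smul' {q : E → ℝ} (h : TestF q) (c : ℝ) : TestF (fun x => c * q x) :=
  ⟨contDiff_const.mul h.1, h.2.mul_left⟩

theorem TestF.zero' : TestF (fun _ => (0 : ℝ)) := ⟨contDiff_const, HasCompactSupport.zero⟩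

theorem gradient_add' {q q' : E → ℝ} (h : TestF q) (h' : TestF q') (x : E) :
    gradient (fun x => q x + q' x) x = gradient q x + gradient q' x := by
  apply ext_inner_right ℝ
  intro v
  rw [inner_gradient, inner_add_left, inner_gradient, inner_gradient,
    fderiv_fun_add (h.1.differentiable (by simp) x) (h'.1.differentiable (by simp) x)]
  rfl

theorem gradient_smul' {q : E → ℝ} (h : TestF q) (c : ℝ) (x : E) :
    gradient (fun x => c * q x) x = c • gradient q x := by
  apply ext_inner_right ℝ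
  intro v
  rw [inner_gradient, real_inner_smul_left, inner_gradient,
    fderiv_const_mul (h.1.differentiable (by simp) x)]
  rfl

/-- Classes of gradients of test functions, restricted to `Ω`. -/
noncomputable def gradSp (Ω : Set E) : Submodule ℝ (Lp E 2 (volume : Measure E)) where
  carrier := {g | ∃ q, TestF q ∧ (g : E → E) =ᵐ[volume] Ω.indicator (gradient q)}
  add_mem' := by
    rintro g g' ⟨q, hq, hg⟩ ⟨q', hq', hg'⟩
    refine ⟨_, TestF.add' hq hq', ?_⟩
    filter_upwards [hg, hg', Lp.coeFn_add g g'] with x h1 h2 h3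
    rw [h3, Pi.add_apply, h1, h2]
    by_cases hx : x ∈ Ω
    · rw [indicator_of_mem hx, indicator_of_mem hx, indicator_of_mem hx, gradient_add' hq hq']
    · rw [indicator_of_notMem hx, indicator_of_notMem hx, indicator_of_notMem hx, add_zero]
  zero_mem' := by
    refine ⟨_, TestF.zero', ?_⟩
    filter_upwards [Lp.coeFn_zero E 2 (volume : Measure E)] with x h1
    rw [h1]
    by_cases hx : x ∈ Ω
    · rw [indicator_of_mem hx]
      simp [gradient]
    · rw [indicator_of_notMem hx]; rfl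
  smul_mem' := by
    rintro c g ⟨q, hq, hg⟩
    refine ⟨_, TestF.smul' hq c, ?_⟩
    filter_upwards [hg, Lp.coeFn_smul c g] with x h1 h3
    rw [h3, Pi.smul_apply, h1]
    by_cases hx : x ∈ Ω
    · rw [indicator_of_mem hx, indicator_of_mem hx, gradient_smul' hq]
    · rw [indicator_of_notMem hx, indicator_of_notMem hx, smul_zero]

theorem sq_indicator_le {Ω : Set E} (hΩ : MeasurableSet Ω) {v : E → E} (hv : MemLp v 2) :
    Pool.Agent.Helper38.Curl.sq (Ω.indicator v) ≤ Pool.Agent.Helper38.Curl.sq v := by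
  have h1 : MemLp (Ω.indicator v) 2 := hv.indicator hΩ
  refine integral_mono (integrable_norm_sq h1) (integrable_norm_sq hv) fun x => ?_
  by_cases hx : x ∈ Ω
  · simp [hx]
  · simp only [indicator_of_notMem hx]
    simp
    

theorem ip_indicator_comm (Ω : Set E) (v w : E → E) :
    ip (Ω.indicator v) w = ip v (Ω.indicator w) := by
  unfold ip
  congr 1
  ext x
  by_cases hx : x ∈ Ω
  · simp [hx]
  · simp [hx]

/-- Packet C-PAIR, with the variational identity as hypothesis. -/
theorem pair_of {Ω : Set E} {u a : E → E} {Λ : ℝ} (hc : Crit Ω u a Λ)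
    (var_in : ∀ b r : E → E, Pot b r → VanOff (closure Ω) r → ip u b = Λ * ip u r)
    {ε : ℝ} (hε : 0 < ε) :
    ∃ A q, TestIn Ω A ∧ TestF q ∧ Pool.Agent.Helper38.Curl.sq (fun x => curl A x - u x) < ε ∧
      sqOn Ω (fun x => Λ • u x - A x - gradient q x) < ε := by
  have hΩ : MeasurableSet Ω := hc.isOpen.measurableSet
  obtain ⟨ρ, hρ⟩ := hc.bdd.subset_closedBall (0 : E)
  set R : ℝ := max ρ 1 with hR
  have hRpos : 0 < R := lt_of_lt_of_le one_pos (le_max_right _ _)
  have hΩR : closure Ω ⊆ closedBall 0 R :=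
    closure_minimal (hρ.trans (closedBall_subset_closedBall (le_max_left _ _)))
      isClosed_closedBall
  have hD : 1 ≤ (2 * R + 1) ^ 2 := by nlinarith
  have hDpos : 0 < (2 * R + 1) ^ 2 := lt_of_lt_of_le one_pos hD
  set e : ℝ := ε / (2 * R + 1) ^ 2 with he
  have hepos : 0 < e := div_pos hε hDpos
  have hele : e ≤ ε := div_le_self hε.le hD
  have heD : (2 * R + 1) ^ 2 * e = ε := by rw [he]; field_simp
  obtain ⟨A, hA, hAu⟩ := hc.inK e hepos
  have hu2 : MemLp u 2 := hc.pot.memLp₂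
  have hA2 : MemLp A 2 := hA.1.memLp
  have hcA2 : MemLp (curl A) 2 := hA.1.curl.memLp
  set f : E → E := fun x => Λ • u x - A x with hf
  have hf2 : MemLp f 2 := (hu2.const_smul Λ).sub hA2
  have hfoff : ∀ x, x ∉ Ω → f x = 0 := by
    intro x hx
    have h1 : A x = 0 := by
      by_contra h
      exact hx (hA.2 (subset_tsupport A h))
    simp only [hf, hc.van x hx, h1, smul_zero, sub_zero]
  set F : Lp E 2 (volume : Measure E) := hf2.toLp f with hF
  obtain ⟨p, hp, z, hz, hfz⟩ := Submodule.exists_add_mem_mem_orthogonal (K := (gradSp Ω)ᗮ) F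
  rw [Submodule.orthogonal_orthogonal_eq_closure] at hz
  have hz' : z ∈ closure ((gradSp Ω : Submodule ℝ (Lp E 2 (volume : Measure E))) :
      Set (Lp E 2 (volume : Measure E))) := hz
  obtain ⟨g, hg, hzg⟩ := Metric.mem_closure_iff.1 hz' (√e) (Real.sqrt_pos.2 hepos)
  obtain ⟨q, hq, hgq⟩ := hg
  refine ⟨A, q, hA, hq, lt_of_lt_of_le hAu hele, ?_⟩
  -- the solenoidal part
  have hp2 : MemLp (p : E → E) 2 := Lp.memLp p
  have hpp : hp2.toLp p = p := Lp.toLp_coeFn p hp2
  set k : E → E := Ω.indicator p with hk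
  have hk2 : MemLp k 2 := hp2.indicator hΩ
  have hkdiv : ∀ η, TestF η → ip k (gradient η) = 0 := by
    intro η hη
    have h1 : MemLp (Ω.indicator (gradient η)) 2 := hη.gradient.memLp.indicator hΩ
    rw [hk, ip_indicator_comm, ip_comm, ip_eq_inner h1 hp2, hpp]
    exact (Submodule.mem_orthogonal _ _).1 hp _ ⟨η, hη, h1.coeFn_toLp⟩
  have hkvan : VanOff (closure Ω) k := (vanOff_ind Ω p).mono subset_closure
  have hksol : Sol (closure Ω) k := ⟨hk2, hkvan, divFree_iff.2 hkdiv⟩
  obtain ⟨b, hb, -, hbk⟩ := Pool.Agent.Helper66.Curl.pot_exists hRpos (hksol.mono hΩR)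
  have hvar := var_in b k hb hkvan
  have hzp : ⟪z, p⟫ = 0 := by
    rw [← Submodule.orthogonal_orthogonal_eq_closure] at hz
    have := (Submodule.mem_orthogonal _ _).1 hz p hp
    rwa [real_inner_comm]
  have h1 : ‖p‖ ^ 2 = ip f p := by
    rw [ip_eq_inner hf2 hp2, hpp, ← hF, hfz, inner_add_left, hzp, add_zero,
      real_inner_self_eq_norm_sq]
  have h2 : ip f p = ip f k := by
    rw [hk, ← ip_indicator_comm]
    congr 1
    ext1 x
    by_cases hx : x ∈ Ω
    · rw [indicator_of_mem hx]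
    · rw [indicator_of_notMem hx, hfoff x hx]
  have h3 : ip f k = Λ * ip u k - ip A k := by
    have hΛu : MemLp (fun x => Λ • u x) 2 := hu2.const_smul Λ
    rw [hf, ip_sub_left hΛu hA2 hk2, ip_smul_left]
  have h4 : ip A k = ip (curl A) b := by
    rw [ip_comm, ← hb.weak A hA.1, ip_comm]
  have h5 : ip f k = ip (fun x => u x - curl A x) b := by
    rw [h3, h4, ← hvar, ip_sub_left hu2 hcA2 hb.memLp₁]
  have h6 : Pool.Agent.Helper38.Curl.sq (fun x => u x - curl A x) < e := by
    have : Pool.Agent.Helper38.Curl.sq (fun x => u x - curl A x)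
        = Pool.Agent.Helper38.Curl.sq (fun x => curl A x - u x) := by
      unfold Pool.Agent.Helper38.Curl.sq
      simp only [norm_sub_rev]
    rw [this]; exact hAu
  have h7 : Pool.Agent.Helper38.Curl.sq b ≤ (2 * R * ‖p‖) ^ 2 := by
    have h8 : Pool.Agent.Helper38.Curl.sq k ≤ ‖p‖ ^ 2 := by
      have := sq_indicator_le hΩ hp2
      rw [sq_eq_norm hp2, hpp] at this
      exact this
    calc Pool.Agent.Helper38.Curl.sq b ≤ 4 * R ^ 2 * Pool.Agent.Helper38.Curl.sq k := hbk
      _ ≤ 4 * R ^ 2 * ‖p‖ ^ 2 := by gcongr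
      _ = (2 * R * ‖p‖) ^ 2 := by ring
  have h9 : ‖p‖ ^ 2 ≤ √e * (2 * R * ‖p‖) := by
    rw [h1, h2, h5]
    refine (le_abs_self _).trans ((abs_ip_le (hu2.sub hcA2) hb.memLp₁).trans ?_)
    have h10 : √(Pool.Agent.Helper38.Curl.sq b) ≤ 2 * R * ‖p‖ := by
      rw [← Real.sqrt_sq (show 0 ≤ 2 * R * ‖p‖ by positivity)]
      exact Real.sqrt_le_sqrt h7
    exact mul_le_mul (Real.sqrt_le_sqrt h6.le) h10 (Real.sqrt_nonneg _) (Real.sqrt_nonneg _)
  have h11 : ‖p‖ ≤ 2 * R * √e := by
    rcases (norm_nonneg p).eq_or_lt with h0 | h0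
    · rw [← h0]; positivity
    · have : ‖p‖ * ‖p‖ ≤ (2 * R * √e) * ‖p‖ := by nlinarith [h9]
      exact le_of_mul_le_mul_right this h0
  -- conclusion
  have hpz : F - g = p + (z - g) := by rw [hfz]; abel
  have h12 : ‖p + (z - g)‖ < (2 * R + 1) * √e := by
    have := norm_add_le p (z - g)
    rw [dist_eq_norm] at hzg
    nlinarith
  have h13 : MemLp (fun x => f x - Ω.indicator (gradient q) x) 2 :=
    hf2.sub (hq.gradient.memLp.indicator hΩ)
  have h14 : h13.toLp _ = F - g := by
    apply Lp.ext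
    filter_upwards [h13.coeFn_toLp, Lp.coeFn_sub F g, hf2.coeFn_toLp, hgq] with x a1 a2 a3 a4
    rw [a1, a2, Pi.sub_apply, a4, hF, a3]
  have h15 : sqOn Ω (fun x => Λ • u x - A x - gradient q x)
      ≤ Pool.Agent.Helper38.Curl.sq (fun x => f x - Ω.indicator (gradient q) x) := by
    rw [sqOn_eq_sq hΩ]
    refine le_of_eq ?_
    congr 1
    ext1 x
    by_cases hx : x ∈ Ω
    · rw [indicator_of_mem hx, indicator_of_mem hx]
    · rw [indicator_of_notMem hx, indicator_of_notMem hx, hfoff x hx, sub_zero]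
  refine lt_of_le_of_lt h15 ?_
  rw [sq_eq_norm h13, h14, hpz, ← heD]
  have h16 : ((2 * R + 1) * √e) ^ 2 = (2 * R + 1) ^ 2 * e := by
    rw [mul_pow, Real.sq_sqrt hepos.le]
  rw [← h16]
  exact pow_lt_pow_left₀ h12 (norm_nonneg _) (by norm_num)

end Pool.Agent.Helper77.Curl
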